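import Pool.Agent.H853.BL.Irr
import Pool.Agent.H853.RU.Nn

/-!
# Lisse sheaves congruent to sums of given sheaves, and geometric origin

Let `k` be a finite field and `X = Spec R` an integral affine scheme over `k` (of any dimension)
with function field `K`.  Let `A` be a noetherian adic local ring with finite residue field `κ` (for
example the integers of a finite extension of `ℚ_l`, or `κ[[t]]`), and let `L i` be finitely many
lisse sheaves on `X` with coefficients in `A` (for example of geometric origin), whose reductions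
are absolutely irreducible and pairwise non-isomorphic on the geometric fundamental group `π'` of a
finite Galois cover `X'` of `X` (for example `X' = X`).

Let `ρ` be a lisse sheaf on `X`, with coefficients in `A`, all of whose irreducible constituents
modulo the maximal ideal are, on `π'`, among the reductions of the `L i`.  Let `σ` be an element of
the Galois group, for example the arithmetic Frobenius element of a closed point, and call
*weights* the eigenvalues of `σ⁻¹` on the cohomology groups `H¹(π', Hom(L j, L i) ⊗ κ̄)`,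
unramified classes.  If no product of at most `n = rank ρ` weights is `1`, then:

(1) the geometric monodromy does not deform: products of `n` matrices `∑ a_g ρ g`, `g ∈ π'`,
`a_g ∈ A`, for which all `∑ a_g L_i g` vanish, are zero;

(2) if `ρ` is semisimple, its restriction to `π'` is a sum of the `L i`;

(3) if `ρ` is irreducible over an algebraically closed field, it is isomorphic to `L i ⊗ N` for
some `i` and some representation `N` which is trivial on `π'`; if `X' = X`, `N` is a character; if
`ρ` and `L i` have determinants of finite order, `N` has finite image.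

So `ρ` is of geometric origin if the `L i` are.

If `P` is a monic polynomial with integral coefficients whose complex roots have absolute value
greater than `1`, there is a positive integer `N`, depending only on `P` and `n`, such that the
hypothesis on the weights can be replaced by: all weights are roots of `P`, and `N` is prime to the
residue characteristic.  If the `L i` belong to compatible systems of pure sheaves, of weight `0`
after a twist, the eigenvalues of the geometric Frobenius on the `l`-adic cohomology groups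
`H¹(X' ⊗ k̄, Hom(L j, L i))` are roots of such a polynomial `P` which is independent of `l`, since
they have weights `1` and `2` (Deligne); the weights above are their reductions if `H¹` and `H²`
have no torsion.

The proof: let `B` be the algebra of the pairs `(∑ a_g ρ g, (∑ a_g L_i g)_i)` and `J` the ideal of
the `(x, 0)` in `B`.  The algebra `B` maps onto the product of the matrix algebras, the kernel is
`J`, and `J` is nilpotent modulo the maximal ideal.  Let `γ` be an element of `B` with second
component `(L_i σ)_i`; the conjugation by `T = γ⁻¹ ρ σ` acts on `J`.  A linear form on the first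
layer of `J` which is an eigenvector of this action gives, by means of lifts of the matrix units, a
cocycle of `π'` with values in `Hom(L j, L i)` for some `i` and `j`, which is not a coboundary and
whose class is an eigenvector; so all the eigenvalues on the layer are weights.  Hence `J` is
generated by generalized eigenvectors of the conjugation by `T` whose eigenvalues are lifts of
weights, and a nonzero product of `n` of them leads from an eigenvalue of `T` back to itself.
-/

set_option autoImplicit false

open IsLocalRing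

namespace Pool.Agent.Results.MP_80bee4_ag.CongruentToSums

/-- a separable closure `Ω` of the function field `K = Frac R` -/
def Om (R : Type) [CommRing R] [IsDomain R] : Type := SeparableClosure (FractionRing R)

noncomputable instance instFieldOm (R : Type) [CommRing R] [IsDomain R] : Field (Om R) :=
  inferInstanceAs (Field (SeparableClosure (FractionRing R)))

noncomputable instance instAlgebraOm (k R : Type) [CommRing k] [CommRing R] [IsDomain R]
    [Algebra k R] : Algebra k (Om R) :=
  inferInstanceAs (Algebra k (SeparableClosure (FractionRing R)))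

/-- the absolute Galois group of `K` -/
def GG (R : Type) [CommRing R] [IsDomain R] : Type :=
  Gal(SeparableClosure (FractionRing R)/FractionRing R)

noncomputable instance instGroupGG (R : Type) [CommRing R] [IsDomain R] : Group (GG R) :=
  inferInstanceAs (Group Gal(SeparableClosure (FractionRing R)/FractionRing R))

/-- the Krull topology -/
noncomputable instance instTopGG (R : Type) [CommRing R] [IsDomain R] :
    TopologicalSpace (GG R) :=
  inferInstanceAs (TopologicalSpace Gal(SeparableClosure (FractionRing R)/FractionRing R))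

variable {R : Type} [CommRing R] [IsDomain R]

/-- the action of the Galois group on `Ω` -/
noncomputable def act (g : GG R) (x : Om R) : Om R :=
  DFunLike.coe (F := Gal(SeparableClosure (FractionRing R)/FractionRing R)) g x

theorem act_inv (g : GG R) (x : Om R) : act g⁻¹ (act g x) = x :=
  AlgEquiv.symm_apply_apply (g : SeparableClosure (FractionRing R) ≃ₐ[FractionRing R]
    SeparableClosure (FractionRing R)) x

/-- The absolute Galois group of the field `K k̄`: the elements of the Galois group which fix the
elements of `Ω` that are algebraic over `k`. -/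
noncomputable def GeomGroup (k R : Type) [Field k] [CommRing R] [IsDomain R] [Algebra k R] :
    Subgroup (GG R) where
  carrier := {g | ∀ x : Om R, IsAlgebraic k x → act g x = x}
  mul_mem' := fun {a b} ha hb x hx => by
    change act a (act b x) = x
    rw [hb x hx, ha x hx]
  one_mem' := fun x _ => rfl
  inv_mem' := fun {a} ha x hx => by
    have h1 := act_inv a x
    rw [ha x hx] at h1
    exact h1

/-- `g` lies in the inertia group at the ideal `P` of the integral closure of `R` in `Ω`: for all
`y` in the integral closure, `g y - y` lies in `P`. -/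
def InInertia (P : Ideal (integralClosure R (Om R))) (g : GG R) : Prop :=
  ∀ y : integralClosure R (Om R), ∃ z ∈ P, (z : Om R) = act g y - y

/-- `ρ` is unramified on `X = Spec R`: it is trivial on the inertia groups at all prime ideals of
the integral closure of `R` in `Ω`. -/
def Unramified {n : ℕ} {A : Type} [CommRing A] (ρ : GG R →* GL (Fin n) A) : Prop :=
  ∀ P : Ideal (integralClosure R (Om R)), P.IsPrime → ∀ τ : GG R, InInertia P τ → ρ τ = 1

/-- `ρ` is a continuous representation of the fundamental group of `X` (a lisse sheaf on `X`). -/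
def Lisse {n : ℕ} {A : Type} [CommRing A] [TopologicalSpace A] (ρ : GG R →* GL (Fin n) A) : Prop :=
  Continuous ρ ∧ Unramified ρ

/-- `Γ` is an open normal subgroup of the Galois group (it defines a finite Galois cover `X'`). -/
def IsCover (Γ : Subgroup (GG R)) : Prop := Γ.Normal ∧ IsOpen (Γ : Set (GG R))

/-- The geometric fundamental group of the cover `X'` of `X` defined by `Γ`. -/
noncomputable def GeomCover (k : Type) [Field k] [Algebra k R] (Γ : Subgroup (GG R)) :
    Subgroup (GG R) := GeomGroup k R ⊓ Γ

section residual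

variable {ι : Type} {d : ι → ℕ} {A : Type} [CommRing A] [IsLocalRing A]

/-- the reduction of the matrix `T` modulo the maximal ideal, with entries in the residue field -/
noncomputable def red {m : ℕ} (T : GL (Fin m) A) : Matrix (Fin m) (Fin m) (ResidueField A) :=
  (T : Matrix (Fin m) (Fin m) A).map (residue A)

/-- the reduction of the matrix `T`, with entries in the extension `E` of the residue field -/
noncomputable def redE (E : Type) [Field E] [Algebra (ResidueField A) E] {m : ℕ} (T : GL (Fin m) A) :
    Matrix (Fin m) (Fin m) E :=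
  (T : Matrix (Fin m) (Fin m) A).map ((algebraMap (ResidueField A) E).comp (residue A))

/-- The reductions of the `L i` are absolutely irreducible and pairwise non-isomorphic on `H`: the
families `(L_i g)_i`, `g ∈ H`, of matrices over the residue field span the product of the full
matrix algebras. -/
def IrreducibleReductions (H : Subgroup (GG R)) (L : ∀ i, GG R →* GL (Fin (d i)) A) : Prop :=
  ∀ y : ∀ i, Matrix (Fin (d i)) (Fin (d i)) (ResidueField A),
    y ∈ Submodule.span (ResidueField A)
      (Set.range fun g : H => (fun i => red (L i g)))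

/-- All constituents of the reduction of `ρ` on `H` are among the reductions of the `L i`: there
is a chain of subspaces `0 = W 0 ⊆ ... ⊆ W t = κ ^ n` such that every `W (s + 1)` is the sum of
`W s` and of the image of a linear map `f` from the space of some `L i`, which is, modulo `W s`,
equivariant for `H`. -/
def CongruentToSum (H : Subgroup (GG R)) {n : ℕ} (ρ : GG R →* GL (Fin n) A)
    (L : ∀ i, GG R →* GL (Fin (d i)) A) : Prop :=
  ∃ (t : ℕ) (W : ℕ → Submodule (ResidueField A) (Fin n → ResidueField A)),
    W 0 = ⊥ ∧ W t = ⊤ ∧ ∀ s < t, ∃ (i : ι)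
      (f : (Fin (d i) → ResidueField A) →ₗ[ResidueField A] (Fin n → ResidueField A)),
      W (s + 1) = W s ⊔ LinearMap.range f ∧
        ∀ g ∈ H, ∀ w, (red (ρ g)).mulVec (f w) - f ((red (L i g)).mulVec w) ∈ W s

variable {E : Type} [Field E] [Algebra (ResidueField A) E]

/-- `a` is a cocycle of `H`, a map with `a (g h) = L_i g (a h) + a g (L_j h)`, zero on an open
subgroup and on the elements of `H` which lie in inertia groups.  These cocycles describe the
extensions of `L j` by `L i`, on the cover of `X` defined by `H`, with coefficients in `E`; their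
classes are the elements of the first cohomology group with coefficients in `Hom(L j, L i)`. -/
structure IsCocycle (H : Subgroup (GG R)) (L : ∀ i, GG R →* GL (Fin (d i)) A) (i j : ι)
    (a : H → Matrix (Fin (d i)) (Fin (d j)) E) : Prop where
  mul : ∀ g h : H, a (g * h) = redE E (L i g) * a h + a g * redE E (L j h)
  continuous : ∃ U : Subgroup (GG R), IsOpen (U : Set (GG R)) ∧ ∀ g : H, (g : GG R) ∈ U → a g = 0
  unramified : ∀ P : Ideal (integralClosure R (Om R)), P.IsPrime →
    ∀ g : H, InInertia P (g : GG R) → a g = 0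

/-- `a` is a coboundary: the class of `a` is zero. -/
def IsCoboundary (H : Subgroup (GG R)) (L : ∀ i, GG R →* GL (Fin (d i)) A) (i j : ι)
    (a : H → Matrix (Fin (d i)) (Fin (d j)) E) : Prop :=
  ∃ m : Matrix (Fin (d i)) (Fin (d j)) E, ∀ g : H, a g = redE E (L i g) * m - m * redE E (L j g)

/-- The class of `a` is an eigenvector of `σ⁻¹` with eigenvalue `s`: `a (σ g σ⁻¹)` is equal to
`s L_i σ (a g) L_j σ⁻¹`, up to the value of a coboundary at `σ g σ⁻¹`. -/
def IsEigenclass (H : Subgroup (GG R)) (σ : GG R) (L : ∀ i, GG R →* GL (Fin (d i)) A) (i j : ι)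
    (a : H → Matrix (Fin (d i)) (Fin (d j)) E) (s : E) : Prop :=
  ∃ m : Matrix (Fin (d i)) (Fin (d j)) E, ∀ g h : H, (h : GG R) = σ * g * σ⁻¹ →
    a h = s • (redE E (L i σ) * a g * redE E (L j σ⁻¹)) +
      (redE E (L i h) * m - m * redE E (L j h))

/-- `s` is a weight: an eigenvalue of `σ⁻¹` on the first cohomology, on the cover of `X` defined by
`H`, with coefficients in `Hom(L j, L i) ⊗ E`, for some `i` and `j`. -/
def Weight (H : Subgroup (GG R)) (σ : GG R) (L : ∀ i, GG R →* GL (Fin (d i)) A) (s : E) : Prop :=
  ∃ (i j : ι) (a : H → Matrix (Fin (d i)) (Fin (d j)) E),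
    IsCocycle H L i j a ∧ ¬ IsCoboundary H L i j a ∧ IsEigenclass H σ L i j a s

/-- No product of at most `n` weights is `1`, or all weights are roots of `P` and `N` is prime to
the residue characteristic. -/
def Condition (P : Polynomial ℤ) (N n : ℕ) (H : Subgroup (GG R)) (σ : GG R)
    (L : ∀ i, GG R →* GL (Fin (d i)) A) : Prop :=
  (∀ l : List (AlgebraicClosure (ResidueField A)), l ≠ [] → l.length ≤ n →
    (∀ s ∈ l, Weight H σ L s) → l.prod ≠ 1) ∨
  (∀ s : AlgebraicClosure (ResidueField A), Weight H σ L s → Polynomial.aeval s P = 0) ∧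
    (N : ResidueField A) ≠ 0

end residual

section conclusions

variable {ι : Type} {d : ι → ℕ} {A : Type} [CommRing A] {n : ℕ}

/-- `x` is a combination `∑ a_g ρ g` over `H` with `∑ a_g L_i g = 0` for all `i`: the pair `(x, 0)`
is in the span of the pairs `(ρ g, (L_i g)_i)`, `g ∈ H`. -/
def InKernel (H : Subgroup (GG R)) (ρ : GG R →* GL (Fin n) A)
    (L : ∀ i, GG R →* GL (Fin (d i)) A) (x : Matrix (Fin n) (Fin n) A) : Prop :=
  ((x, 0) : Matrix (Fin n) (Fin n) A × ∀ i, Matrix (Fin (d i)) (Fin (d i)) A) ∈
    Submodule.span A (Set.range fun g : H =>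
      (((ρ g : Matrix (Fin n) (Fin n) A), fun i => (L i g : Matrix (Fin (d i)) (Fin (d i)) A)) :
        Matrix (Fin n) (Fin n) A × ∀ i, Matrix (Fin (d i)) (Fin (d i)) A))

/-- All products of `n` of these matrices are zero. -/
def NilpotentKernel (H : Subgroup (GG R)) (ρ : GG R →* GL (Fin n) A)
    (L : ∀ i, GG R →* GL (Fin (d i)) A) : Prop :=
  ∀ x : Fin n → Matrix (Fin n) (Fin n) A, (∀ s, InKernel H ρ L (x s)) → (List.ofFn x).prod = 0

/-- the matrix `T` with entries in the field `Λ` -/
def ext (Λ : Type) [Field Λ] [Algebra A Λ] {m : ℕ} (T : GL (Fin m) A) :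
    Matrix (Fin m) (Fin m) Λ :=
  (T : Matrix (Fin m) (Fin m) A).map (algebraMap A Λ)

variable (Λ : Type) [Field Λ] [Algebra A Λ]

/-- `W` is an invariant subspace of `Λ ^ n`. -/
def Invariant (ρ : GG R →* GL (Fin n) A) (W : Submodule Λ (Fin n → Λ)) : Prop :=
  ∀ g, ∀ w ∈ W, (ext Λ (ρ g)).mulVec w ∈ W

/-- The representation on the vector space `Λ ^ n` is semisimple: every invariant subspace has an
invariant complement. -/
def Semisimple (ρ : GG R →* GL (Fin n) A) : Prop :=
  ∀ W : Submodule Λ (Fin n → Λ), Invariant Λ ρ W →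
    ∃ W' : Submodule Λ (Fin n → Λ), IsCompl W W' ∧ Invariant Λ ρ W'

/-- The representation on the vector space `Λ ^ n` is irreducible. -/
def Irreducible (ρ : GG R →* GL (Fin n) A) : Prop :=
  n ≠ 0 ∧ ∀ W : Submodule Λ (Fin n → Λ), Invariant Λ ρ W → W = ⊥ ∨ W = ⊤

/-- `Λ ^ n` is spanned by the images of linear maps from the spaces of the `L i` which are
equivariant for `H`: the restriction of `ρ` to `H` is a sum of the `L i`. -/
def SumOn (H : Subgroup (GG R)) (ρ : GG R →* GL (Fin n) A)
    (L : ∀ i, GG R →* GL (Fin (d i)) A) : Prop :=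
  ∀ v : Fin n → Λ, v ∈ Submodule.span Λ {v | ∃ (i : ι) (f : (Fin (d i) → Λ) →ₗ[Λ] (Fin n → Λ)),
    (∀ g ∈ H, ∀ w, (ext Λ (ρ g)).mulVec (f w) = f ((ext Λ (L i g)).mulVec w)) ∧ ∃ w, f w = v}

/-- `ρ` is isomorphic, over `Λ`, to the tensor product of `N` and `L₁`. -/
def IsTensor {m d₁ : ℕ} (ρ : GG R →* GL (Fin n) A) (N : GG R →* GL (Fin m) Λ)
    (L₁ : GG R →* GL (Fin d₁) A) : Prop :=
  ∃ Ψ : (Fin m → Fin d₁ → Λ) ≃ₗ[Λ] (Fin n → Λ), ∀ g w, (ext Λ (ρ g)).mulVec (Ψ w) =
    Ψ (fun r => ∑ s, (N g : Matrix (Fin m) (Fin m) Λ) r s • (ext Λ (L₁ g)).mulVec (w s))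

/-- the determinant has finite order -/
def FiniteDeterminant (ρ : GG R →* GL (Fin n) A) : Prop :=
  ∃ M : ℕ, M ≠ 0 ∧ ∀ g, (ρ g : Matrix (Fin n) (Fin n) A).det ^ M = 1

/-- `ρ` is isomorphic over `Λ` to `N ⊗ L i`, for some `i` and some `N` trivial on `H`; `N` is a
character if `Γ` is the whole Galois group, and it has finite image if `ρ` and `L i` have
determinants of finite order. -/
def TensorOf (H Γ : Subgroup (GG R)) (ρ : GG R →* GL (Fin n) A)
    (L : ∀ i, GG R →* GL (Fin (d i)) A) : Prop :=
  ∃ (i : ι) (m : ℕ) (N : GG R →* GL (Fin m) Λ), (∀ g ∈ H, N g = 1) ∧ (Γ = ⊤ → m = 1) ∧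
    (FiniteDeterminant ρ → FiniteDeterminant (L i) → (Set.range N).Finite) ∧ IsTensor Λ ρ N (L i)

end conclusions

/-- The statement about the sheaves `ρ` and `L i`. -/
def Statement (P : Polynomial ℤ) (N : ℕ) (k : Type) [Field k] [Algebra k R]
    (Γ : Subgroup (GG R)) (σ : GG R) {n : ℕ} {ι : Type} {d : ι → ℕ} {A : Type} [CommRing A]
    [IsLocalRing A] (ρ : GG R →* GL (Fin n) A) (L : ∀ i, GG R →* GL (Fin (d i)) A) : Prop :=
  IrreducibleReductions (GeomCover k Γ) L → CongruentToSum (GeomCover k Γ) ρ L →
    Condition P N n (GeomCover k Γ) σ L →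
      NilpotentKernel (GeomCover k Γ) ρ L ∧
      (∀ (Λ : Type) [Field Λ] [Algebra A Λ], Function.Injective (algebraMap A Λ) →
        Semisimple Λ ρ → SumOn Λ (GeomCover k Γ) ρ L) ∧
      (∀ (Λ : Type) [Field Λ] [IsAlgClosed Λ] [Algebra A Λ],
        Function.Injective (algebraMap A Λ) → Irreducible Λ ρ →
          TensorOf Λ (GeomCover k Γ) Γ ρ L)

theorem quot_finite (Γ : Subgroup (GG R)) (h : IsOpen (Γ : Set (GG R))) : Finite (GG R ⧸ Γ) :=
  Pool.Agent.H853.RU.quot_finite R Γ h

open Pool.Agent.H853.BL in
theorem result (n : ℕ) (P : Polynomial ℤ) (hP : P.Monic)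
    (hroots : ∀ z : ℂ, Polynomial.aeval z P = 0 → 1 < ‖z‖) :
    ∃ N : ℕ, N ≠ 0 ∧ ∀ (k : Type) [Field k] [Finite k] (R : Type) [CommRing R] [IsDomain R]
    [Algebra k R] (Γ : Subgroup (GG R)) (_ : IsCover Γ) (σ : GG R) (A : Type) [CommRing A]
    [IsLocalRing A] [IsNoetherianRing A] [TopologicalSpace A]
    (_ : IsAdic (maximalIdeal A)) (_ : Finite (ResidueField A)) (ι : Type) (_ : Finite ι)
    (d : ι → ℕ) (L : ∀ i, GG R →* GL (Fin (d i)) A) (_ : ∀ i, Lisse (L i))
    (ρ : GG R →* GL (Fin n) A) (_ : Lisse ρ), Statement P N k Γ σ ρ L := by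
  obtain ⟨N, hN0, hN⟩ := Pool.Agent.H853.RU.exists_N_list P hP hroots n
  refine ⟨N, hN0, ?_⟩
  intro k _ _ R _ _ _ Γ hΓΓ σ A _ _ _ _ hA hκ ι _ d L hLL ρ hρρ hL hcong hcond
  obtain ⟨hΓ, hΓ'⟩ := hΓΓ
  obtain ⟨hρ, hlisse⟩ := hρρ
  classical
  have hgeo : (GeomGroup k R).Normal := by
    refine ⟨fun g hg h => ?_⟩
    intro x hx
    change act h (act g (act h⁻¹ x)) = x
    rw [hg (act h⁻¹ x) (Pool.Agent.H853.RU.alg_stable (k := k) (R := R) _ x hx)]
    have h1 := act_inv h⁻¹ x
    rwa [inv_inv] at h1
  have hcomm : ∀ g h : GG R, g * h * g⁻¹ * h⁻¹ ∈ GeomGroup k R := by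
    intro g h x hx
    exact Pool.Agent.H853.RU.comm_fix (k := k) (R := R) g h x hx
  have hH : (GeomCover k Γ).Normal := by
    unfold GeomCover
    infer_instance
  set H := GeomCover k Γ with hHdef
  -- the second case follows from the first
  have hprod : ∀ l : List (AlgebraicClosure (ResidueField A)), l ≠ [] → l.length ≤ n →
      (∀ s ∈ l, s ∈ {s | Weight H σ L s}) → l.prod ≠ 1 := by
    rcases hcond with h | ⟨h, hNA⟩
    · exact h
    · intro l hl1 hl2 hl3 hl4
      have h1 := hN (AlgebraicClosure (ResidueField A)) l hl1 hl2 (fun s hs => h s (hl3 s hs)) hl4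
      refine hNA ?_
      rw [← map_natCast (algebraMap (ResidueField A) (AlgebraicClosure (ResidueField A)))] at h1
      exact (map_eq_zero _).1 h1
  obtain ⟨t, W, hW⟩ := hcong
  -- the open subgroups
  have hopen : ∀ (k : ℕ), ∃ U : Subgroup (GG R), IsOpen (U : Set (GG R)) ∧ ∀ g ∈ U,
      (∀ x y, (ρ g : Matrix (Fin n) (Fin n) A) x y - (1 : Matrix (Fin n) (Fin n) A) x y ∈
        maximalIdeal A ^ k) ∧ ∀ e x y, (L e g : Matrix (Fin (d e)) (Fin (d e)) A) x y -
          (1 : Matrix (Fin (d e)) (Fin (d e)) A) x y ∈ maximalIdeal A ^ k := by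
    intro k
    obtain ⟨U, hU1, hU2⟩ := Pool.Agent.H853.RU.open_level hA ρ hρ k
    choose V hV1 hV2 using fun e => Pool.Agent.H853.RU.open_level hA (L e) (hLL e).1 k
    refine ⟨U ⊓ ⨅ e, V e, ?_, fun g hg => ⟨hU2 g hg.1, fun e => hV2 e g ?_⟩⟩
    · rw [Subgroup.coe_inf, Subgroup.coe_iInf]
      exact hU1.inter (isOpen_iInter_of_finite fun e => hV1 e)
    · exact (Subgroup.mem_iInf.1 hg.2) e
  -- the nilpotency
  have hnil : JJ H ρ L ^ n = ⊥ := by
    refine adic (AlgebraicClosure (ResidueField A)) H ρ L σ hL (t := t) (W := W) hW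
      {s | Weight H σ L s} ?_ hprod
    intro k s i j a m hw
    refine ⟨i, j, a, ⟨hw.mul, ?_, ?_⟩, ?_, m, hw.eig⟩
    · obtain ⟨U, hU1, hU2⟩ := hopen k
      exact ⟨U, hU1, fun g hg => hw.near g (hU2 g hg).1 (hU2 g hg).2⟩
    · intro P hP g hg
      refine hw.near g (fun x y => ?_) fun e x y => ?_
      · rw [hlisse P hP g hg, Units.val_one, sub_self]
        exact Ideal.zero_mem _
      · rw [(hLL e).2 P hP g hg, Units.val_one, sub_self]
        exact Ideal.zero_mem _
    · rintro ⟨M, hM⟩
      obtain ⟨g, hg⟩ := hw.ne M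
      exact hg (hM g)
  have hlift : ∀ y : EL d A, ∃ x : Mt n A, ((x, y) : Mt n A × EL d A) ∈ BB H ρ L :=
    exists_lift' (residue_surjective (R := A)) (by
      rw [ker_residue]
      exact (IsLocalRing.jacobson_eq_maximalIdeal ⊥ bot_ne_top).ge) hL
  have hop : ∀ (Λ : Type) [Field Λ] [Algebra A Λ] {m : ℕ} (T : GL (Fin m) A) (v : Fin m → Λ),
      op Λ (T : Mt m A) v = (ext Λ T).mulVec v := fun Λ _ _ m T v => op_apply _ _
  have hbot : ∀ (Λ : Type) [Field Λ] [Algebra A Λ], Function.Injective (algebraMap A Λ) →
      Semisimple Λ ρ → JJ H ρ L = ⊥ := by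
    intro Λ _ _ hinj hss
    refine JJ_bot hinj hnil (fun W hW => ?_)
    obtain ⟨W', h1, h2⟩ := hss W (fun g w hw => by rw [← hop]; exact hW g w hw)
    exact ⟨W', h1, fun g w hw => by rw [hop]; exact h2 g w hw⟩
  refine ⟨?_, ?_, ?_⟩
  · intro x hx
    have h1 : ∀ l : List (Mt n A), (∀ y ∈ l, y ∈ JJ H ρ L) → l.prod ∈ JJ H ρ L ^ l.length := by
      intro l
      induction l with
      | nil =>
        intro _
        rw [List.prod_nil, List.length_nil, pow_zero]
        exact Submodule.one_le.1 le_rfl
      | cons y l ih =>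
        intro hl
        rw [List.prod_cons, List.length_cons, pow_succ']
        exact Submodule.mul_mem_mul (hl y List.mem_cons_self)
          (ih fun z hz => hl z (List.mem_cons_of_mem _ hz))
    have h2 := h1 (List.ofFn x) (fun y hy => by
      obtain ⟨s, rfl⟩ := (List.mem_ofFn' _ _).1 hy
      exact hx s)
    rw [List.length_ofFn, hnil] at h2
    exact h2
  · intro Λ _ _ hinj hss v
    have h1 := spanned (Λ := Λ) hlift (hbot Λ hinj hss) v
    refine Submodule.span_mono ?_ h1
    rintro _ ⟨i, f, hf, w, rfl⟩
    refine ⟨i, f, fun g hg w => ?_, w, rfl⟩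
    rw [← hop, ← hop]
    exact hf g hg w
  · intro Λ _ _ _ hinj hirr
    have hirr' : ∀ W : Submodule Λ (Fin n → Λ),
        (∀ g, ∀ w ∈ W, op Λ (ρ g : Mt n A) w ∈ W) → W = ⊥ ∨ W = ⊤ := by
      intro W hW
      exact hirr.2 W (fun g w hw => by rw [← hop]; exact hW g w hw)
    have hss : Semisimple Λ ρ := by
      intro W hW
      rcases hirr.2 W hW with rfl | rfl
      · exact ⟨⊤, isCompl_bot_top, fun g w _ => trivial⟩
      · refine ⟨⊥, isCompl_top_bot, fun g w hw => ?_⟩
        rw [Submodule.mem_bot] at hw ⊢
        rw [hw, Matrix.mulVec_zero]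
    obtain ⟨i, m, M, Ψ, hM, hΨ⟩ := tensor hlift (hbot Λ hinj hss) hirr.1 hirr'
    obtain ⟨hm0, hd0, hMirr⟩ := factor_irr hirr.1 Ψ hΨ hirr'
    have hMirr' : ∀ W : Submodule Λ (Fin m → Λ), (∀ g, ∀ w ∈ W,
        ((M g : Matrix (Fin m) (Fin m) Λ).map (algebraMap Λ Λ)).mulVec w ∈ W) →
        W = ⊥ ∨ W = ⊤ := by
      intro W hW
      refine hMirr W fun g w hw => ?_
      have h1 := hW g w hw
      have h2 : (M g : Matrix (Fin m) (Fin m) Λ).map (algebraMap Λ Λ) = M g := by
        ext x y
        rfl
      rw [h2] at h1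
      exact h1
    refine ⟨i, m, M, hM, ?_, ?_, Ψ, fun g w => ?_⟩
    · rintro rfl
      refine Pool.Agent.H853.RU.irr_comm (Λ := Λ) M (fun g h => ?_) hm0 hMirr'
      have h1 := hM _ ⟨hcomm g h, Subgroup.mem_top _⟩
      rw [map_mul, map_mul, map_mul, map_inv, map_inv, mul_inv_eq_one, mul_inv_eq_iff_eq_mul]
        at h1
      exact h1
    · rintro ⟨M₁, hM₁, h1⟩ ⟨M₂, hM₂, h2⟩
      have hfin : (Set.range fun g : GeomGroup k R => M g).Finite := by
        have : Finite (GG R ⧸ Γ) := quot_finite Γ hΓ'
        let f : GeomGroup k R → GG R ⧸ Γ := fun g => ((g : GG R) : GG R ⧸ Γ)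
        have hf : ∀ g h : GeomGroup k R, f g = f h → M g = M h := by
          intro g h hgh
          have h1 : (g : GG R)⁻¹ * h ∈ Γ := QuotientGroup.eq.1 hgh
          have h2 := hM _ ⟨(GeomGroup k R).mul_mem ((GeomGroup k R).inv_mem g.2) h.2, h1⟩
          rw [map_mul, map_inv, inv_mul_eq_one] at h2
          exact h2
        have h3 : (Set.range f).Finite :=
          (Set.finite_univ (α := GG R ⧸ Γ)).subset (Set.subset_univ _)
        have h4 : (Set.range fun g : GeomGroup k R => M g) ⊆
            (fun x : GG R ⧸ Γ => if hx : ∃ g : GeomGroup k R, f g = x then M hx.choose else 1) ''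
              Set.range f := by
          rintro _ ⟨g, rfl⟩
          refine ⟨f g, ⟨g, rfl⟩, ?_⟩
          have hx : ∃ g' : GeomGroup k R, f g' = f g := ⟨g, rfl⟩
          change (if hx : ∃ g' : GeomGroup k R, f g' = f g then M hx.choose else 1) = M g
          rw [dif_pos hx]
          exact hf _ _ hx.choose_spec
        exact (h3.image _).subset h4
      refine Pool.Agent.H853.RU.finite_range (A := Λ) (Λ := Λ) (fun _ _ h => h) (GeomGroup k R) M
        hfin hcomm hm0 hMirr' (M := d i * (M₁ * M₂))
        (mul_ne_zero hd0 (mul_ne_zero hM₁ hM₂)) fun g => ?_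
      have h3 := factor_det Ψ hΨ g
      have h4 : algebraMap A Λ (ρ g : Mt n A).det ^ (M₁ * M₂) = 1 := by
        rw [pow_mul, ← map_pow, h1, map_one, one_pow]
      have h5 : algebraMap A Λ (L i g : Mt (d i) A).det ^ (M₁ * M₂) = 1 := by
        rw [mul_comm, pow_mul, ← map_pow, h2, map_one, one_pow]
      rw [h3, mul_pow, ← pow_mul, ← pow_mul _ m, mul_comm m, pow_mul _ _ m, h5, one_pow,
        mul_one] at h4
      exact h4
    · rw [← hop, hΨ g w]
      congr 1

end Pool.Agent.Results.MP_80bee4_ag.CongruentToSums
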